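import Pool.Agent.Lib.MP_da4f77_co.Main

set_option autoImplicit false

namespace Pool.Agent.Results.MP_da4f77_co.CryTop

theorem result :
    ∀ n : ℕ, 1 ≤ n →
      ∃ p : Polynomial ℚ,
        (∀ t : ℕ, 1 ≤ t →
          p.eval (t : ℚ) =
            ((Set.ncard {M : Fin n → Fin n → ℕ |
                (∀ i j : Fin n, j < i → M i j = 0) ∧
                ∀ k : Fin n,
                  (∑ j : Fin n, (if k ≤ j then (M k j : ℤ) else 0))
                    - (∑ i : Fin n, (if i < k then (M i k : ℤ) else 0))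
                    = (t : ℤ) * ((if k.val = 0 then (1 : ℕ) else 0 : ℕ) : ℤ)}) : ℚ)) ∧
        p.natDegree = n.choose 2 ∧
        ∀ i : ℕ, i ≤ p.natDegree → 10000 * (p.natDegree - i) ≤ p.natDegree → 0 < p.coeff i := by
  intro n hn
  obtain ⟨p, h1, h2, h3⟩ := Pool.Agent.Lib.MP_da4f77_co.cry_top n hn
  exact ⟨p, fun t _ => h1 t, h2, by rw [h2]; exact h3⟩

end Pool.Agent.Results.MP_da4f77_co.CryTop
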